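import Pool.Agent.Helper17.BP.ParMain
import Pool.Agent.Helper17.BP.K3Sys

/-!
# The conjecture of Parshin for products with K3 surfaces of different heights, relative to an
arbitrary variety

Let `κ` be a finite field with `q = p ^ m` elements, and `𝒱` a class of smooth projective varieties over
`κ`, closed under products, with Chow groups `A` with rational coefficients and a Weil cohomology theory
`H` (framework of the starting files: `TheoryData`, `IsChow`, `IsWeil`). Let `X_i`, `1 ≤ i ≤ r`, be K3
surfaces over `κ` of finite heights `h_i`, with `22 - b_i` the geometric Picard number, all divisors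
being defined over `κ` (true after a finite extension of `κ`). More generally (`HasK3Type`) `X_i` is a
variety whose cohomology is generated by the classes of algebraic cycles and a subspace `T` stable under
the Frobenius, where the eigenvalues of the Frobenius are, up to roots of unity and after an extension of
`κ` of degree `e_i`, of the form `q ^ w` times a product of at most `n_i` conjugates of the number `α_i`,
not balanced (some conjugate and its inverse do not occur equally often). Here `α_i` is the Frobenius
number of a K3 surface of height `h_i` (`IsK3Number`: all powers of `α_i` generate the CM field `E_i`,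
the complex absolute values are `1`, the `p`-adic embeddings with `|α_i| > 1` belong to one place, and
there `|α_i| = q ^ (1 / h_i)`; `h_i` and `b_i` are the same multiple of the local degree and of the degree
`2 d_i` of `E_i`). So `X_i` can be a K3 surface or a cubic fourfold (`n_i = 1`), a power of
a K3 surface or a Hilbert scheme of points of a K3 surface, if the Tate conjecture is known for it (for
instance `S × S`, `n_i = 2`, for all K3 surfaces `S` of finite height: Ito, Ito and Koshikawa).

Let `Z` be **any** smooth projective variety in `𝒱`, and `U` **any** separated scheme of finite type over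
`κ`, singular or not, projective or not, such that the Frobenius endomorphism of `U` is a root of a
polynomial `χ` with rational coefficients, `χ(0) ≠ 0`, on the groups `H_c^i(X × U, ℚ(n))`, `X` in `𝒱`
(for instance the motive of `U` with compact support is an iterated extension of finite-dimensional
motives in the sense of Kimura and O'Sullivan: all curves `U`, all open or closed subsets of curves
and products of those, and for `U` a point `χ = x - 1`). Let `Γ` be a set of rational numbers which
contains `0`, such that the products `β ρ` of the eigenvalues `β` of the Frobenius on `H(Z)` and of the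
roots `ρ` of `χ` are Weil numbers of some weights `w`, with slopes in `w / 2 + Γ` if `w` is even. Suppose
(`Admissible`) that

* integers `a_i`, `|a_i| ≤ n_i`, such that `∑ a_i / h_i` belongs to `Γ` are zero, and that `n_i ≤ 2`, or
  `n_i = 3` and `(d_i, m_i) ∉ exceptionalPairs`, or `m_i` is odd and `(d_i, m_i) ∉ exceptionalOddPairs`,
  with the local degree `m_i`; or
* (`Γ = {0}`) this only for the `a_i` with index `i` in a set of indices (the `Isolated` ones), and for
  the other indices only that `n_i = 1`, that the `h_i` are different, and that there are not three such
  indices with `(h, b) = (2, 4), (3, 6), (6, 12)` (the bounds `h ≤ 11`, `b ≤ 23` hold for all K3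
  surfaces).

Moreover homologically trivial self-correspondences of degree zero of the products of `Z` and of the
`X_i` are nilpotent (for example if the motives are finite-dimensional in the sense of Kimura and
O'Sullivan).

Motivic cohomology with compact support of the schemes `X × U` (`CompactCohomology`): `M.H m` is the
theory `X ↦ ⨁ H_c^(2n-m)(X × U, ℚ(n))`, and `M.φ m` is the Frobenius endomorphism of `U`. Only the following
is used (`IsCompactCohomology`): correspondences act, `M.φ m` commutes with them and is a root of `χ`, and
the Frobenius endomorphism of `X × U` acts as `q ^ n` in weight `n`.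

**Theorem.** Let `V` be the product of `Z` and of finitely many of the `X_i` (pairwise different), and
`δ = dim V - dim Z`.
1. For all integers `i`, `n`: **`H_c^i(V × U, ℚ(n)) = 0` if and only if `H_c^(i-2k)(Z × U, ℚ(n-k)) = 0`
  for `0 ≤ k ≤ δ`**.
2. For every `n` the conjecture in weight `n` (`H_c^i(V × U, ℚ(n)) = 0` for all `i < 2n`, which for smooth
  projective `U` is the statement `P^n` for `V × U` in the form `CH^n(V × U, m)_ℚ = 0` for all
  `m > 0`) is true for `V × U` if and only if the conjecture is true for `Z × U` in the weights
  `n - δ, …, n`. In particular **the conjecture of Parshin is true for `V × U` if and only if it is true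
  for `Z × U`.**
3. (Künneth formula) If `V = X_i × V'` then there are finitely many cycles `D j` of codimension `deg j` on
  `X_i`, which do not depend on `U`, such that `H_c^a(V × U, ℚ(n)) = ⨁ D j × H_c^(a - 2 deg j)(V' × U, ℚ(n - deg j))`
  for all `a`, `n`.

In particular:
* (`Γ = {0}`) the conjecture of Parshin is true for **all products `V` of K3 surfaces of pairwise
  different finite heights** (not `2, 3, 6` with Picard numbers `18, 16, 10`) and for `V × U` with a
  curve `U` (in the form with compact support for every `U` of dimension at most one), as soon as the
  motives of the K3 surfaces are finite-dimensional, for example for the Kummer surfaces `X_1`, `X_2` of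
  an ordinary abelian surface and of an abelian surface of `p`-rank one;
* (`Γ` the integers) for a K3 surface `X` of height `h > 1` and **every** `Z`, `U` with integral
  slopes in even weights, for instance every ordinary `Z` and `U` a point, the conjecture of Parshin for
  `X × Z × U` is equivalent to the one for `Z × U`.

Idea of the proof: by the results on slopes of the starting files (helper179) no product of
eigenvalues of the Frobenius on the parts `T` of several `X_i`, on the cohomology of `Z` and of
roots of `χ` is a power of `q`. So the part of the motive of `X_i` that does not come from cycles does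
not contribute to the cohomology of `X_i × V' × U` in any degree and weight.
-/

set_option autoImplicit false

open Finset Polynomial CategoryTheory AlgebraicGeometry NumberField

namespace Pool.Agent.Results.MP_de59b4_ag.DifferentHeights

open Pool.Agent.H914 Pool.Agent.H914.VarClass Pool.Agent.H914.VarClass.Obj Pool.Agent.W492.BB
  Pool.Agent.W484.CK Pool.Agent.N876.R816 Pool.Agent.Helper17.BP

/-- **The conjecture of Parshin for products with K3 surfaces of different heights.** -/
theorem result (p m : ℕ) [Fact p.Prime] (κ : Type) [Field κ] [Fintype κ] {r : ℕ}
    (E : Fin r → Type) [∀ i, Field (E i)] [∀ i, NumberField (E i)] [∀ i, IsCMField (E i)]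
    (α : ∀ i, E i) (e h b n : Fin r → ℕ) (Γ : Set ℚ) (hD : IsK3Data κ p m α e h b n Γ)
    {𝒱 : VarClass κ} (A : TheoryData.{0, 0, 0} 𝒱 ℚ) [IsChow A] {K : Type} [Field K]
    [IsAlgClosed K] [CharZero K] (H : WeilTheoryData.{0, 0, 0} A K) [IsWeil H]
    (F : ∀ X : 𝒱.Obj, X ⟶ X) (X : Fin r → 𝒱.Obj) (Z : 𝒱.Obj) (χ : ℚ[X])
    (hS : IsK3System p m α e n Γ H F X Z χ)
    (hnil : ∀ L : List (Fin r), Nilpotence H (productOf X Z L)) :
    (∀ (M : CompactCohomology A), IsCompactCohomology M F (Fintype.card κ) χ →
      ∀ L : List (Fin r), L.Nodup →
      (∀ i n : ℤ, M.IsZero (productOf X Z L) i n ↔
        ∀ k : ℕ, k ≤ dimension X L → M.IsZero Z (i - 2 * k) (n - k)) ∧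
      (∀ n : ℤ, M.Parshin (productOf X Z L) n ↔
        ∀ k : ℕ, k ≤ dimension X L → M.Parshin Z (n - k)) ∧
      ((∀ n : ℤ, M.Parshin (productOf X Z L) n) ↔ ∀ n : ℤ, M.Parshin Z n)) ∧
    (∀ (i : Fin r) (L : List (Fin r)), i ∉ L → L.Nodup →
      KunnethForAll A F (Fintype.card κ) χ (X i) (productOf X Z L)) :=
  parshin_main (cr_k3 hD hS) hS.polarized hS.ne_zero hnil

end Pool.Agent.Results.MP_de59b4_ag.DifferentHeights
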