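import Pool.Agent.Helper17.BP.Rel

/-!
# The conjecture of Parshin for products with cyclic coverings branched along hyperplanes, relative to
an arbitrary variety

Let `κ` be a finite field with `q = c ^ f` elements, and `𝒱` a class of smooth projective varieties over
`κ`, closed under products, with Chow groups `A` with rational coefficients and a Weil cohomology theory
`H` (framework of the starting files: `TheoryData`, `IsChow`, `IsWeil`). Let `X_i` be varieties in `𝒱`, of
any dimensions `n_i`, which are models of cyclic coverings

  `w ^ N_i = ∏ l_{i,k} (x) ^ a_{i,k}`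

of projective spaces, branched along hyperplanes `l_{i,k} = 0` over `κ`, with exponents prime to `N_i`,
where `N_i` divides `q - 1` (`IsModel`, see the definitions: the cohomology is generated by the
classes of cycles and a part `T`, pure of weight `n_i`, without invariants under the covering
group, for which the trace formula holds). Let `N` be a common multiple of the `N_i`, and `λ` an
integer such that `IsSmall N λ` holds: for every nonempty finite set `I` of indices and all `j_i` not
divisible by `N_i` (`i ∈ I`) there is a `u` prime to `N` with
`∑_{i ∈ I} weight X_i (u j_i) + λ / 2 < ∑_{i ∈ I} (n_i / 2 + 1)`; here `weight X j` is the mean over the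
orbit `j, c j, …, c ^ (f - 1) j` of the sum of the fractional parts of `j a_k / N_i`.

Let `Z` be **any** smooth projective variety in `𝒱`, and `U` **any** separated scheme of finite type over
`κ`, singular or not, projective or not, such that the Frobenius endomorphism of `U` is a root of a
polynomial `χ` with rational coefficients, `χ(0) ≠ 0`, on the groups `H_c^i(X × U, ℚ(n))`, `X` in `𝒱`
(for instance the motive of `U` with compact support is an iterated extension of finite-dimensional
motives in the sense of Kimura and O'Sullivan: all curves `U`, all open or closed subsets of curves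
and products of those, and for `U` a point `χ = x - 1`). We assume that the products `b` of the
eigenvalues of the Frobenius on `H(Z)` and of the roots of `χ` are of the form `|b| ^ 2 = q ^ j` (theorem
of Deligne) and that
* either `λ = 0` and the cyclotomic polynomial of order `N` is irreducible over the field generated by
  the numbers `b`,
* or the numbers `b` are of level `≤ λ`: the numbers `q ^ λ b / b̄` are algebraic integers. This is true
  if `dim Z + dim U ≤ λ`.

Moreover homologically trivial self-correspondences of degree zero of the products of `Z` and of the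
`X_i` are nilpotent.

Motivic cohomology with compact support of the schemes `X × U` (`CompactCohomology`): `M.H m` is the
theory `X ↦ ⨁ H_c^(2n-m)(X × U, ℚ(n))`, and `M.φ m` is the Frobenius endomorphism of `U`. Only the following
is used (`IsCompactCohomology`): correspondences act, `M.φ m` commutes with them and is a root of `χ`, and
the Frobenius endomorphism of `X × U` acts as `q ^ n` in weight `n`.

**Theorem.** Let `V` be the product of `Z` and of finitely many of the `X_i` (pairwise different), and
`δ = dim V - dim Z`.
1. For all integers `i`, `n`: **`H_c^i(V × U, ℚ(n)) = 0` if and only if `H_c^(i-2k)(Z × U, ℚ(n-k)) = 0`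
  for `0 ≤ k ≤ δ`**.
2. For every `n` the conjecture in weight `n` (`H_c^i(V × U, ℚ(n)) = 0` for all `i < 2n`, which for smooth
  projective `U` is the statement `P^n` for `V × U` in the form `CH^n(V × U, m)_ℚ = 0` for all
  `m > 0`) is true for `V × U` if and only if the conjecture is true for `Z × U` in the weights
  `n - δ, …, n`. In particular **the conjecture of Parshin is true for `V × U` if and only if it is true
  for `Z × U`.**
3. (Künneth formula) If `V = X_i × V'` then there are finitely many cycles `D j` of codimension `deg j` on
  `X_i`, which do not depend on `U`, such that `H_c^a(V × U, ℚ(n)) = ⨁ D j × H_c^(a - 2 deg j)(V' × U, ℚ(n - deg j))`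
  for all `a`, `n`.

By the theorems of Quillen and Harder the conjecture is true for `Z × U` if `Z` is a point and `U` a
curve, or any scheme of dimension at most one. So for all these `U` and all products `V` of the `X_i` the
rational motivic cohomology with compact support of `V × U` is given by cycles, if the motives of the
`X_i` are finite-dimensional (`X_i` curves, or `n_i + 2` branch hyperplanes in general position).

Examples. (a) Let `X_i` be curves `y ^ N_i = ∏ (x - x_{i,k})` with `N_i` factors, of genus
`(N_i - 1) (N_i - 2) / 2`, for different prime numbers `N_i` dividing `c - 1`. Then `weight X_i j` is the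
residue of `j` modulo `N_i`, and `IsSmall N 0` holds for the product `N` of the `N_i` (take `u` with
`u j_i = 1` modulo `N_i`). (b) Let `X` be the variety `w ^ N = l_1 ⋯ l_N` of dimension `n = N - 2`, with
`N` hyperplanes in general position, for a prime number `N` dividing `c - 1` (the resolutions are
Calabi-Yau varieties). The weight for `u j = 1` is `1`, so `IsSmall N λ` holds for all `λ < n`: the
theorem applies to **all `Z` and `U` with `dim Z + dim U < dim X`** (with finite-dimensional motives).

Idea of the proof: by the theorem of Stickelberger on Gauss sums and the product formula no product of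
eigenvalues of the Frobenius on the parts `T` of several `X_i`, on the cohomology of `Z` and of
roots of `χ` is a power of `q` (starting files, helper876 and others). So the part of the motive of `X_i`
that does not come from cycles does not contribute to the cohomology of `X_i × V' × U` in any degree and
weight.
-/

set_option autoImplicit false

open Finset Polynomial CategoryTheory AlgebraicGeometry

namespace Pool.Agent.Results.MP_de59b4_ag.HyperplaneCoverings

open Pool.Agent.H914 Pool.Agent.H914.VarClass Pool.Agent.H914.VarClass.Obj Pool.Agent.W492.BB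
  Pool.Agent.W484.CK Pool.Agent.N876.R816 Pool.Agent.Helper17.BP

section defs

variable {κ : Type} [Field κ] {𝒱 : VarClass κ} {A : TheoryData.{0, 0, 0} 𝒱 ℚ}

/-- The data of motivic cohomology with compact support and rational coefficients of the schemes
`X × U` for a fixed scheme `U`: for every integer `m` the theory `X ↦ ⨁ H_c^(2n-m)(X × U, ℚ(n))`, with
the grading by `n`, and the Frobenius endomorphism of `U`. -/
structure CompactCohomology (A : TheoryData.{0, 0, 0} 𝒱 ℚ) where
  /-- the theory `⨁ H_c^(2n-m)(X × U, ℚ(n))` -/
  H : ℤ → MotivicData A
  /-- the Frobenius endomorphism of `U` -/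
  φ : ∀ (m : ℤ) (X : 𝒱.Obj), (H m).M X →ₗ[ℚ] (H m).M X

/-- Correspondences act on the groups `H_c^(2n-m)(X × U, ℚ(n))`, the Frobenius endomorphism of `U`
commutes with them and is a root of `χ`, and the Frobenius endomorphism of `X × U` acts as
multiplication by `q ^ n`. -/
def IsCompactCohomology (M : CompactCohomology A) (F : ∀ X : 𝒱.Obj, X ⟶ X) (q : ℕ)
    (χ : ℚ[X]) : Prop :=
  ∀ m : ℤ, IsCycleTheory (M.H m) (M.φ m) F q ∧ IsRoot (M.H m) (M.φ m) χ

/-- `H_c^i(X × U, ℚ(n)) = 0`. -/
def CompactCohomology.IsZero (M : CompactCohomology A) (X : 𝒱.Obj) (i n : ℤ) : Prop :=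
  ∀ m : ℤ, i = 2 * n - m → (M.H m).gr X n = ⊥

/-- `H_c^i(X × U, ℚ(n)) = 0` for all `i < 2 n`. -/
def CompactCohomology.Parshin (M : CompactCohomology A) (X : 𝒱.Obj) (n : ℤ) : Prop :=
  ∀ i : ℤ, i < 2 * n → M.IsZero X i n

end defs

/-- **The conjecture of Parshin for products with cyclic coverings branched along hyperplanes.** -/
theorem result (c : ℕ) [Fact c.Prime] (κ : Type) [Field κ] [Fintype κ] [CharP κ c] {ι : Type}
    (C : ι → Covering κ) (f N lam : ℕ) (hC : IsSmallSystem C c f N lam)
    {𝒱 : VarClass κ} (A : TheoryData.{0, 0, 0} 𝒱 ℚ) [IsChow A] {K : Type} [Field K]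
    [IsAlgClosed K] [CharZero K] (H : WeilTheoryData.{0, 0, 0} A K) [IsWeil H] (τ : K →+* ℂ)
    (F : ∀ X : 𝒱.Obj, X ⟶ X) (X : ι → 𝒱.Obj) (Z : 𝒱.Obj) (χ : ℚ[X])
    (h : IsCoveringSystem C N lam H τ F X Z χ)
    (hnil : ∀ L : List ι, Nilpotence H (productOf X Z L)) :
    (∀ (M : CompactCohomology A), IsCompactCohomology M F (Fintype.card κ) χ →
      ∀ L : List ι, L.Nodup →
      (∀ i n : ℤ, M.IsZero (productOf X Z L) i n ↔
        ∀ k : ℕ, k ≤ dimension X L → M.IsZero Z (i - 2 * k) (n - k)) ∧
      (∀ n : ℤ, M.Parshin (productOf X Z L) n ↔
        ∀ k : ℕ, k ≤ dimension X L → M.Parshin Z (n - k)) ∧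
      ((∀ n : ℤ, M.Parshin (productOf X Z L) n) ↔ ∀ n : ℤ, M.Parshin Z n)) ∧
    (∀ (i : ι) (L : List ι), i ∉ L → L.Nodup → ∃ (J : Type) (_ : Fintype J) (deg : J → ℕ)
      (D : J → A.A (X i)), (∀ j, deg j ≤ (X i).dim ∧ A.Deg (deg j) (D j)) ∧
      ∀ (M : CompactCohomology A), IsCompactCohomology M F (Fintype.card κ) χ →
        ∀ m, Pool.Agent.W484.CK.HasKunneth (M.H m) (X i) (productOf X Z L) deg D) := by
  obtain ⟨S, hS⟩ := cr_cov c κ C f N lam hC A H τ F X Z χ h
  refine ⟨fun M hM L hL => ?_, fun i L hi hL => ?_⟩
  · have h1 : ∀ i n : ℤ, M.IsZero (productOf X Z L) i n ↔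
        ∀ k : ℕ, k ≤ dimension X L → M.IsZero Z (i - 2 * k) (n - k) := by
      intro i n
      have hv := fun m => vanish_rel hS h.polarized h.ne_zero hnil (hM m).1 (hM m).2 hL n
      constructor
      · intro h1 k hk m hm
        exact (hv m).1 (h1 m (by omega)) _ (by omega) (by omega)
      · intro h1 m hm
        rw [hv]
        intro l hl1 hl2
        obtain ⟨k, hk⟩ := Int.eq_ofNat_of_zero_le (sub_nonneg.2 hl2)
        have h2 := h1 k (by omega) m (by omega)
        have h3 : n - (k : ℤ) = l := by omega
        rwa [h3] at h2
    have h2 : ∀ n : ℤ, M.Parshin (productOf X Z L) n ↔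
        ∀ k : ℕ, k ≤ dimension X L → M.Parshin Z (n - k) := by
      intro n
      constructor
      · intro h2 k hk i hi
        have h3 := (h1 (i + 2 * k) n).1 (h2 _ (by omega)) k hk
        simpa using h3
      · intro h2 i hi
        rw [h1]
        intro k hk
        exact h2 k hk _ (by omega)
    refine ⟨h1, h2, fun h3 n => ?_, fun h3 n => (h2 n).2 fun k _ => h3 _⟩
    have h4 := (h2 n).1 (h3 n) 0 (Nat.zero_le _)
    simpa using h4
  · obtain ⟨J, hJ, deg, D, h1, h2⟩ := kunneth_rel hS h.ne_zero hnil hi hL
    exact ⟨J, hJ, deg, D, h1, fun M hM m => h2 _ _ (hM m).1 (hM m).2⟩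

end Pool.Agent.Results.MP_de59b4_ag.HyperplaneCoverings
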