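import Pool.Agent.Helper17.BP.ParMain
import Pool.Agent.Helper17.SL.PSys

/-!
# The conjecture of Parshin and independent slopes

Let `κ` be a finite field with `q = p ^ m` elements, and `𝒱` a class of smooth projective varieties over
`κ`, closed under products, with Chow groups `A` with rational coefficients and a Weil cohomology theory
`H` (framework of the starting files: `TheoryData`, `IsChow`, `IsWeil`).

Slopes. Let `p` be the characteristic of `κ`, and `slope` the valuation of the algebraic closure of `ℚ_p`
with `slope q = 1`. Let `x` be a Weil number of weight `w` (algebraic, with all complex absolute values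
`q ^ (w / 2)`). For a set `D ⊂ ℤ/2 × ℚ` let `SlopesIn D x` mean that the slopes `λ` of all `p`-adic
conjugates of `x` satisfy `(w mod 2, λ - w / 2) ∈ D`, and let `SlopesMeet D B x` mean that moreover
`(w mod 2, λ - w / 2) ∈ B` for at least one of these slopes.

Let `X_i`, `1 ≤ i ≤ r`, be varieties in `𝒱` whose cohomology is generated by the classes of algebraic
cycles and a subspace `T_i` stable under the Frobenius, with `SlopesMeet (D i) (B i)` for the
eigenvalues of the Frobenius on `T_i` (`HasSlopeCohomology`).

Let `Z` be **any** smooth projective variety in `𝒱`, and `U` **any** separated scheme of finite type over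
`κ`, singular or not, projective or not, such that the Frobenius endomorphism of `U` is a root of a
polynomial `χ` with rational coefficients, `χ(0) ≠ 0`, on the groups `H_c^i(X × U, ℚ(n))`, `X` in `𝒱`
(for instance the motive of `U` with compact support is an iterated extension of finite-dimensional
motives in the sense of Kimura and O'Sullivan: all curves `U`, all open or closed subsets of curves
and products of those, and for `U` a point `χ = x - 1`). Let `D₀` be a set which contains `(0, 0)`, with
`SlopesIn D₀` for the products `β ρ` of the eigenvalues `β` of the Frobenius on `H(Z)` and of the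
roots `ρ` of `χ`. Suppose that the sets of slopes are independent (`Independent`): **if
`d_i ∈ D i`, for `i` in a set of indices, and `d ∈ D₀` satisfy `∑ d_i + d = 0`, then no `d_i` is in `B i`**.
The following two cases are typical.

* (Coprime denominators; `independent_coprime` in `Pool.Agent.Helper17.SL.Coprime`) There are pairwise
  coprime positive integers `N_0, N_1, …, N_r` such that `N_i` is a denominator of the slopes of `X_i`, and
  `N_0` of those of `Z × U`, and every eigenvalue on `T_i` has a conjugate whose slope is not an integer.
* (`B i` the pairs with second component different from zero) No eigenvalue on `T_i` is supersingular;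
  if the Tate conjecture and semisimplicity are known for `X_i` over all finite extensions of `κ`, such
  a `T_i` exists if and only if the supersingular cohomology classes have even degree and are defined over
  `κ`. For K3 surfaces or cubic fourfolds `X_i` of finite heights `h_i`, with **arbitrary** Picard
  numbers and fields of endomorphisms, the set `D i` consists of `(0, 0)`, `(0, 1 / h_i)` and
  `(0, -1 / h_i)`, and independence means that `∑ ± 1 / h_i + c ≠ 0` for every choice of signs, every
  nonempty set of indices and all `(0, c) ∈ D₀`.

For example: `X_1` any supersingular abelian variety or curve whose even cohomology is generated by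
classes of cycles over `κ` (the odd cohomology has slopes `w / 2`, `w` odd, `N_1 = 2`), `X_2` a K3
surface or a cubic fourfold of height `3`, or a curve or an abelian variety with slopes with
denominator `3` (`N_2 = 3`), and so on, and `Z × U` **any** variety with integral slopes, for
instance any ordinary variety.

Moreover homologically trivial self-correspondences of degree zero of the products of `Z` and of the
`X_i` are nilpotent (for example if the motives are finite-dimensional in the sense of Kimura and
O'Sullivan).

Motivic cohomology with compact support of the schemes `X × U` (`CompactCohomology`): `M.H m` is the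
theory `X ↦ ⨁ H_c^(2n-m)(X × U, ℚ(n))`, and `M.φ m` is the Frobenius endomorphism of `U`. Only the following
is used (`IsCompactCohomology`): correspondences act, `M.φ m` commutes with them and is a root of `χ`, and
the Frobenius endomorphism of `X × U` acts as `q ^ n` in weight `n`.

**Theorem.** Let `V` be the product of `Z` and of finitely many of the `X_i` (pairwise different), and
`δ = dim V - dim Z`.
1. For all integers `i`, `n`: **`H_c^i(V × U, ℚ(n)) = 0` if and only if `H_c^(i-2k)(Z × U, ℚ(n-k)) = 0`
  for `0 ≤ k ≤ δ`**.
2. For every `n` the conjecture in weight `n` (`H_c^i(V × U, ℚ(n)) = 0` for all `i < 2n`, which for smooth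
  projective `U` is the statement `P^n` for `V × U` in the form `CH^n(V × U, m)_ℚ = 0` for all
  `m > 0`) is true for `V × U` if and only if the conjecture is true for `Z × U` in the weights
  `n - δ, …, n`. In particular **the conjecture of Parshin is true for `V × U` if and only if it is true
  for `Z × U`.**
3. (Künneth formula) If `V = X_i × V'` then there are finitely many cycles `D j` of codimension `deg j` on
  `X_i`, which do not depend on `U`, such that `H_c^a(V × U, ℚ(n)) = ⨁ D j × H_c^(a - 2 deg j)(V' × U, ℚ(n - deg j))`
  for all `a`, `n`.

Idea of the proof: a relation `(∏ μ_i) q ^ e β ρ = q ^ w`, up to roots of unity, between eigenvalues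
`μ_i` on `T_i`, `i ∈ I`, an eigenvalue `β` on `H(Z)` and a root `ρ` of `χ`, is mapped by every embedding of
the field `ℚ(μ_i, β ρ)` into the complex and into the `p`-adic numbers to a relation between weights and
between slopes; for an embedding with slope of one `μ_i` in `B i` this contradicts independence. So the
part of the motive of `X_i` that does not come from cycles does not contribute to the cohomology of
`X_i × V' × U` in any degree and weight.
-/

set_option autoImplicit false

open Finset Polynomial CategoryTheory AlgebraicGeometry

namespace Pool.Agent.Results.MP_de59b4_ag.IndependentSlopes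

open Pool.Agent.H914 Pool.Agent.H914.VarClass Pool.Agent.H914.VarClass.Obj Pool.Agent.W492.BB
  Pool.Agent.W484.CK Pool.Agent.N876.R816 Pool.Agent.Helper17.SL Pool.Agent.Helper17.SL.P
open Pool.Agent.Helper17.BP (CompactCohomology IsCompactCohomology KunnethForAll parshin_main)

/-- **The conjecture of Parshin and independent slopes.** -/
theorem result (p m : ℕ) [Fact p.Prime] (κ : Type) [Field κ] [Fintype κ] {r : ℕ}
    (D B : Fin r → Set (ZMod 2 × ℚ)) (D₀ : Set (ZMod 2 × ℚ)) {𝒱 : VarClass κ}
    (A : TheoryData.{0, 0, 0} 𝒱 ℚ) [IsChow A] {K : Type} [Field K]
    [IsAlgClosed K] [CharZero K] (H : WeilTheoryData.{0, 0, 0} A K) [IsWeil H]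
    (F : ∀ X : 𝒱.Obj, X ⟶ X) (X : Fin r → 𝒱.Obj) (Z : 𝒱.Obj) (χ : ℚ[X])
    (hS : IsSlopeSystem p m D B D₀ H F X Z χ)
    (hnil : ∀ L : List (Fin r), Nilpotence H (productOf X Z L)) :
    (∀ (M : CompactCohomology A), IsCompactCohomology M F (Fintype.card κ) χ →
      ∀ L : List (Fin r), L.Nodup →
      (∀ i n : ℤ, M.IsZero (productOf X Z L) i n ↔
        ∀ k : ℕ, k ≤ dimension X L → M.IsZero Z (i - 2 * k) (n - k)) ∧
      (∀ n : ℤ, M.Parshin (productOf X Z L) n ↔
        ∀ k : ℕ, k ≤ dimension X L → M.Parshin Z (n - k)) ∧
      ((∀ n : ℤ, M.Parshin (productOf X Z L) n) ↔ ∀ n : ℤ, M.Parshin Z n)) ∧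
    (∀ (i : Fin r) (L : List (Fin r)), i ∉ L → L.Nodup →
      KunnethForAll A F (Fintype.card κ) χ (X i) (productOf X Z L)) :=
  parshin_main (cr_slope hS) hS.polarized hS.ne_zero hnil

end Pool.Agent.Results.MP_de59b4_ag.IndependentSlopes
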