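import Pool.Agent.Helper11U.Surf

/-!
# Parshin's conjecture and trilinear forms

`k` is a finite field. For a separated scheme `X` of finite type over `k` let `M i n X` be the motivic
(Borel-Moore) homology `H_i(X, ℚ(n)) = CH_n(X, i - 2n) ⊗ ℚ`, let `N i n X` be its weight homology (the
homology of the complex of the Chow groups `CH_n ⊗ ℚ` of the weight complex of Gillet and Soulé), and `c`
the natural map. For `X` smooth of pure dimension `d` one has `M i n X = H^{2d - i}(X, ℚ(d - n))`; hence the
conjecture of Parshin (`P^n` for all `n`) says that `M i n X = 0` for `i ≠ 2n` and all smooth projective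
`X`.

The hypersurfaces `T(x, y, z) = 1` in affine spaces for trilinear forms `T` over `k` are smooth, of
arbitrary dimension.
-/

set_option autoImplicit false

open CategoryTheory CategoryTheory.Limits AlgebraicGeometry
open Pool.Agent.Helper11U Pool.Agent.Y116.UV Pool.Agent.Z125.UN Pool.Agent.Q282.UK

universe w

namespace Pool.Agent.Results.MP_de59b4_ag.TrilinearHypersurfaces

/-- The conjecture of Parshin for `X`: the motivic homology of `X` vanishes outside of the Chow
groups. -/
def Parshin {k : Type} [Field k] (D : CmpThy.{w} k ℚ) (X : Sch k) : Prop :=
  ∀ i n : ℤ, i ≠ 2 * n → Subsingleton (D.M i n X)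

/-- Motivic homology is weight homology for `X`, in all degrees and weights. -/
def IsWeight {k : Type} [Field k] (D : CmpThy.{w} k ℚ) (X : Sch k) : Prop :=
  ∀ i n : ℤ, Bij (D.c i n X)

/-- The known properties.
* `cmp`, `transfer`: the properties of motivic homology and weight homology (`IsCmp`: localization,
  affine bundles, `X × 𝔾_m`, the point), and transfers;
* `pure`: for smooth proper `X` the weight homology vanishes for `i ≠ 2n`, and the comparison map is
  bijective for `i = 2n`;
* `alterations`: the theorem of de Jong as a principle of dévissage;
* `curves`: the conjecture of Parshin in dimension at most one (Quillen, Harder, Soulé);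
* `surfaces`: motivic homology is weight homology for the closed subschemes `X` of the affine spaces of
  dimension at most three all of whose equations are products of polynomials of degree at most three and
  of polynomials with at most four terms. (The components of `X` of dimension two have smooth projective
  models which are geometrically rational or ruled surfaces or are dominated by Fermat surfaces or
  products of curves; the conjecture of Parshin is true for them by Soulé and Geisser.) -/
structure IsParshinThy {k : Type} [Field k] (D : CmpThy.{w} k ℚ) : Prop where
  cmp : IsCmp D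
  transfer : HasTransfer D
  pure : ∀ X : Sch k, FT True X → IsProper X.hom → Smooth X.hom →
    (∀ i n : ℤ, i ≠ 2 * n → Subsingleton (D.N i n X)) ∧
      ∀ n : ℤ, Bij (D.c (2 * n) n X)
  alterations : Alterations k
  curves : ForSmoothProper (Parshin D) 1
  surfaces : ForNice (IsWeight D) 3 3 4

variable {k : Type} [Field k] {D : CmpThy.{w} k ℚ}

lemma parshin_iff (hD : IsParshinThy D) (X : Sch k) (hX : FT True X) (h1 : IsProper X.hom)
    (h2 : Smooth X.hom) : Parshin D X ↔ IsWeight D X := by
  obtain ⟨hN, hc⟩ := hD.pure X hX h1 h2
  constructor
  · intro h i n
    by_cases hi : i = 2 * n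
    · subst hi
      exact hc n
    · have e1 := h i n hi
      have e2 := hN i n hi
      exact ⟨fun _ _ _ => Subsingleton.elim _ _, fun _ => ⟨0, Subsingleton.elim _ _⟩⟩
  · intro h i n hi
    have e2 := hN i n hi
    exact ⟨fun x y => (h i n).1 (Subsingleton.elim _ _)⟩

lemma forSmooth_iff (hD : IsParshinThy D) (d : WithBot ℕ∞) :
    ForSmoothProper (Parshin D) d ↔ ForSmoothProper (IsWeight D) d :=
  ⟨fun h X hX h1 h2 hd => (parshin_iff hD X hX h1 h2).mp (h X hX h1 h2 hd),
    fun h X hX h1 h2 hd => (parshin_iff hD X hX h1 h2).mpr (h X hX h1 h2 hd)⟩

/-- **Theorem.** Let `k` be a finite field, and let `d = 0, 1, 2, …` or `d = ∞`. The conjecture of Parshin is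
true for all smooth proper schemes over `k` of dimension at most `d` if and only if motivic homology is
weight homology for the hypersurfaces `T(x, y, z) = 1` of all trilinear forms `T` over `k` which are not of
cubic type and such that one of the three blocks of variables has at most `d + 2` elements. Here `T` is
of cubic type if one of the blocks of `T` has at most three elements, or if there are at most four
variables `z` and every minor of the matrix of linear forms `T(z)` is a product of polynomials of degree
at most three and of polynomials with at most four terms. -/
theorem result [Finite k] (hD : IsParshinThy D) (d : ℕ∞) :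
    ForSmoothProper (Parshin D) d ↔ ForRemaining (IsWeight D) (d + 2) := by
  have hB : Bnd True (IsWeight D) := bnd_cmp hD.cmp
  have hf : ∀ {V U : Sch k} (f : V ⟶ U), FT True U → IsFinite f.left → Flat f.left →
      Surjective f.left → IsIntegral V.left → IsIntegral U.left → IsWeight D V → IsWeight D U :=
    fun f h1 h2 h3 h4 h5 h6 h i n => bij_summand (hD.transfer f h1 h2 h3 h4 h5 h6 i n) (h i n)
  have h3 : ForBlock (IsWeight D) 3 :=
    (alt_iff hB hf hD.alterations 1).mp ((forSmooth_iff hD 1).mp hD.curves)
  rw [forSmooth_iff hD, ← remaining_iff hB h3 hD.surfaces]
  exact alt_blocks hB hf hD.alterations d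

end Pool.Agent.Results.MP_de59b4_ag.TrilinearHypersurfaces
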